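import Pool.Agent.H182R2.JumC

set_option autoImplicit false
set_option linter.unusedSectionVars false

open Finset Pool.Agent.H182R2.Jum

namespace Pool.Agent.Results.MP_9a0e6b_co.ExponentThree

open Classical in
/-- `e(X, Y)`: the number of ordered pairs `(x, y) ∈ X × Y` such that `xy` is an edge of `G`. -/
noncomputable def edgeCount {V : Type} (G : SimpleGraph V) (X Y : Finset V) : ℕ :=
  ((X ×ˢ Y).filter fun xy => G.Adj xy.1 xy.2).card

/-- `G` is `(p, β)`-jumbled: `|e(X, Y) - p |X| |Y|| ≤ β √(|X| |Y|)` for all vertex sets `X, Y`. -/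
def Jumbled {V : Type} (G : SimpleGraph V) (p β : ℝ) : Prop :=
  ∀ X Y : Finset V, |(edgeCount G X Y : ℝ) - p * X.card * Y.card| ≤
    β * Real.sqrt (X.card * Y.card)

/-- The statement `R(a)`: for every `ε > 0` there are `δ, c > 0` such that for every finite vertex
set `V` (with `n = |V|`), all `p ∈ (0, 1]` and all `0 < β ≤ c p^a n`, every `(p, β)`-jumbled graph
`G` on `V` has the property that each subgraph `H` of `G` with at most `δ p^3 n^3` triangles can be
made triangle-free by deleting at most `ε p n^2` of its edges. -/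
def R (a : ℝ) : Prop :=
  ∀ ε : ℝ, 0 < ε → ∃ δ : ℝ, 0 < δ ∧ ∃ c : ℝ, 0 < c ∧
    ∀ (V : Type) [Fintype V] (p β : ℝ), 0 < p → p ≤ 1 → 0 < β →
      β ≤ c * p ^ a * (Fintype.card V : ℝ) →
      ∀ G : SimpleGraph V, Jumbled G p β →
        ∀ H : SimpleGraph V, H ≤ G →
          ((H.cliqueSet 3).ncard : ℝ) ≤ δ * p ^ 3 * (Fintype.card V : ℝ) ^ 3 →
          ∃ H' : SimpleGraph V, H' ≤ H ∧ H'.CliqueFree 3 ∧
            ((H.edgeSet \ H'.edgeSet).ncard : ℝ) ≤ ε * p * (Fintype.card V : ℝ) ^ 2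

section graphs

variable {K : Type} [Field K] [Fintype K] [DecidableEq K] [CharP K 2] (χ : Chi K)

/-- The Cayley graph of `K^6` with connection set `A`. -/
def cay (A : Finset ((K × K × K) × (K × K × K))) (h0 : (0 : (K × K × K) × (K × K × K)) ∉ A) :
    SimpleGraph ((K × K × K) × (K × K × K)) where
  Adj x y := x + y ∈ A
  symm := ⟨fun x y h => by rwa [add_comm]⟩
  loopless := ⟨fun x h => h0 (by rwa [add_self6] at h)⟩

/-- host graph -/
def hostG : SimpleGraph ((K × K × K) × (K × K × K)) := cay (S χ) (zero_not_mem_S χ)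

/-- subgraph -/
def subH : SimpleGraph ((K × K × K) × (K × K × K)) := cay (T χ) (zero_not_mem_T χ)

lemma subH_le : subH χ ≤ hostG χ := fun _ _ h => T_subset_S χ h

lemma jumbled_hostG : Jumbled (hostG χ) (1 / (Fintype.card K : ℝ)) (2 * (Fintype.card K : ℝ) ^ 3) := by
  classical
  intro X Y
  have hq : (0 : ℝ) < Fintype.card K := by exact_mod_cast Fintype.card_pos (α := K)
  have h := jumbled_int χ X Y
  have hE : (edgeCount (hostG χ) X Y : ℝ) =
      ((∑ a ∈ X, ∑ b ∈ Y, (if a + b ∈ S χ then (1 : ℤ) else 0) : ℤ) : ℝ) := by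
    have : ((edgeCount (hostG χ) X Y : ℕ) : ℤ) =
        ∑ a ∈ X, ∑ b ∈ Y, (if a + b ∈ S χ then (1 : ℤ) else 0) := by
      rw [edgeCount, Finset.card_filter, Finset.sum_product]
      push_cast
      refine Finset.sum_congr rfl fun a _ => Finset.sum_congr rfl fun b _ => ?_
      by_cases hab : a + b ∈ S χ
      · rw [if_pos hab, if_pos (show (hostG χ).Adj a b from hab)]
      · rw [if_neg hab, if_neg (show ¬ (hostG χ).Adj a b from hab)]
    rw [← this]
    push_cast
    rfl
  rw [hE]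
  set E : ℝ := ((∑ a ∈ X, ∑ b ∈ Y, (if a + b ∈ S χ then (1 : ℤ) else 0) : ℤ) : ℝ)
  set q : ℝ := (Fintype.card K : ℝ)
  have e1 : q ^ 4 * (E - 1 / q * X.card * Y.card) = q ^ 4 * E - q ^ 3 * X.card * Y.card := by
    field_simp
  have e2 : q ^ 4 * |E - 1 / q * X.card * Y.card| ≤
      q ^ 4 * (2 * q ^ 3 * Real.sqrt (X.card * Y.card)) := by
    rw [← abs_of_pos (show (0 : ℝ) < q ^ 4 by positivity), ← abs_mul,
      abs_of_pos (show (0 : ℝ) < q ^ 4 by positivity), e1]
    refine h.trans (le_of_eq ?_)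
    ring
  exact le_of_mul_le_mul_left e2 (by positivity)

/-- Sum over the third vertex. -/
lemma third (a b : (K × K × K) × (K × K × K)) :
    4 * (iT χ (a + b) * ∑ c, iT χ (b + c) * iT χ (a + c)) =
      ((Fintype.card K : ℤ) ^ 3 - 5 * (Fintype.card K : ℤ) ^ 2 + 6 * (Fintype.card K : ℤ)) *
        iT χ (a + b) := by
  by_cases hab : a + b ∈ T χ
  · have h1 : iT χ (a + b) = 1 := if_pos hab
    rw [h1, one_mul, mul_one, ← count_T χ hab]
    congr 1
    refine Fintype.sum_equiv (Equiv.addLeft b) _ _ (fun c => ?_)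
    show _ = iT χ (b + c) * iT χ (a + b + (b + c))
    have : a + b + (b + c) = a + (b + b) + c := by abel
    rw [this, add_self6, add_zero]
  · have h1 : iT χ (a + b) = 0 := if_neg hab
    rw [h1]
    ring

lemma card_six : (Fintype.card ((K × K × K) × (K × K × K)) : ℤ) = (Fintype.card K : ℤ) ^ 6 := by
  simp only [Fintype.card_prod]
  push_cast
  ring

lemma sum_pairs : ∑ a, ∑ b, iT χ (a + b) = (Fintype.card K : ℤ) ^ 6 * ((T χ).card : ℤ) := by
  have h : ∀ a, ∑ b, iT χ (a + b) = ((T χ).card : ℤ) := by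
    intro a
    rw [← sum_iT]
    exact Fintype.sum_equiv (Equiv.addLeft a) _ _ (fun b => rfl)
  simp only [h, Finset.sum_const, Finset.card_univ, nsmul_eq_mul, card_six]

lemma sum_triples : 4 * ∑ a, ∑ b, ∑ c, iT χ (a + b) * (iT χ (b + c) * iT χ (a + c)) =
    ((Fintype.card K : ℤ) ^ 3 - 5 * (Fintype.card K : ℤ) ^ 2 + 6 * (Fintype.card K : ℤ)) *
      ((Fintype.card K : ℤ) ^ 6 * ((T χ).card : ℤ)) := by
  rw [← sum_pairs]
  simp only [Finset.mul_sum]
  refine Finset.sum_congr rfl fun a _ => Finset.sum_congr rfl fun b _ => ?_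
  have := third χ a b
  rw [← this]
  simp only [Finset.mul_sum]

lemma iT_nonneg (z : (K × K × K) × (K × K × K)) : 0 ≤ iT χ z := by
  unfold iT; split_ifs <;> norm_num

lemma triangles_le : (((subH χ).cliqueSet 3).ncard : ℤ) ≤
    ∑ a, ∑ b, ∑ c, iT χ (a + b) * (iT χ (b + c) * iT χ (a + c)) := by
  classical
  set Q : Finset (((K × K × K) × (K × K × K)) × ((K × K × K) × (K × K × K)) ×
      ((K × K × K) × (K × K × K))) :=
    univ.filter (fun abc => abc.1 + abc.2.1 ∈ T χ ∧ abc.2.1 + abc.2.2 ∈ T χ ∧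
      abc.1 + abc.2.2 ∈ T χ) with hQ
  have hsub : (subH χ).cliqueSet 3 ⊆ ((Q.image fun abc => ({abc.1, abc.2.1, abc.2.2} :
      Finset ((K × K × K) × (K × K × K)))) : Set (Finset ((K × K × K) × (K × K × K)))) := by
    intro s hs
    rw [SimpleGraph.mem_cliqueSet_iff, SimpleGraph.is3Clique_iff] at hs
    obtain ⟨a, b, c, hab, hac, hbc, rfl⟩ := hs
    rw [Finset.coe_image]
    refine ⟨(a, b, c), ?_, rfl⟩
    simp only [hQ, Finset.coe_filter, Finset.mem_univ, true_and]
    exact ⟨hab, hbc, hac⟩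
  have h1 : ((subH χ).cliqueSet 3).ncard ≤ Q.card := by
    refine (Set.ncard_le_ncard hsub (Finset.finite_toSet _)).trans ?_
    rw [Set.ncard_coe_finset]
    exact Finset.card_image_le
  have h2 : (Q.card : ℤ) = ∑ a, ∑ b, ∑ c, iT χ (a + b) * (iT χ (b + c) * iT χ (a + c)) := by
    rw [hQ, Finset.card_filter, Fintype.sum_prod_type]
    push_cast
    refine Finset.sum_congr rfl fun a _ => ?_
    rw [Fintype.sum_prod_type]
    refine Finset.sum_congr rfl fun b _ => Finset.sum_congr rfl fun c _ => ?_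
    simp only [iT]
    by_cases h1 : a + b ∈ T χ <;> by_cases h2 : b + c ∈ T χ <;> by_cases h3 : a + c ∈ T χ <;>
      simp [h1, h2, h3]
  rw [← h2]
  exact_mod_cast h1

open Classical in
lemma twice_edges {V : Type} [Fintype V] (G : SimpleGraph V) :
    ∑ a, ∑ b, (if G.Adj a b then (1 : ℤ) else 0) = 2 * (G.edgeSet.ncard : ℤ) := by
  have h1 := G.sum_degrees_eq_twice_card_edges
  have h2 : ∀ a, (G.degree a : ℤ) = ∑ b, (if G.Adj a b then (1 : ℤ) else 0) := by
    intro a
    rw [← SimpleGraph.card_neighborFinset_eq_degree, SimpleGraph.neighborFinset_eq_filter,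
      Finset.card_filter]
    push_cast
    rfl
  have h3 : G.edgeSet.ncard = G.edgeFinset.card := by
    rw [← SimpleGraph.coe_edgeFinset, Set.ncard_coe_finset]
  rw [h3, Finset.sum_congr rfl fun a _ => (h2 a).symm, ← Nat.cast_sum, h1]
  push_cast
  rfl

/-- Lower bound for the number of edges to be removed. -/
lemma removed (hq4 : 4 ≤ Fintype.card K) (H' : SimpleGraph ((K × K × K) × (K × K × K)))
    (_hle : H' ≤ subH χ) (hfree : H'.CliqueFree 3) :
    (Fintype.card K : ℤ) ^ 6 * ((T χ).card : ℤ) ≤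
      6 * (((subH χ).edgeSet \ H'.edgeSet).ncard : ℤ) := by
  classical
  set q : ℤ := (Fintype.card K : ℤ) with hq
  have hq4' : 4 ≤ q := by rw [hq]; exact_mod_cast hq4
  set g : ((K × K × K) × (K × K × K)) → ((K × K × K) × (K × K × K)) → ℤ :=
    fun a b => if (subH χ \ H').Adj a b then 1 else 0 with hg
  have hg0 : ∀ a b, 0 ≤ g a b := by
    intro a b; simp only [hg]; split_ifs <;> norm_num
  have hgsymm : ∀ a b, g a b = g b a := by
    intro a b
    simp only [hg, SimpleGraph.adj_comm]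
  have hgf : ∀ a b, g a b * iT χ (a + b) = g a b := by
    intro a b
    by_cases h : (subH χ \ H').Adj a b
    · have : iT χ (a + b) = 1 := if_pos (show a + b ∈ T χ from (SimpleGraph.sdiff_adj _ _ _ _ |>.1 h).1)
      rw [this, mul_one]
    · simp only [hg, if_neg h, zero_mul]
  have hpt : ∀ a b c, iT χ (a + b) * (iT χ (b + c) * iT χ (a + c)) ≤
      (g a b + g b c + g a c) * (iT χ (a + b) * (iT χ (b + c) * iT χ (a + c))) := by
    intro a b c
    by_cases hab : a + b ∈ T χ
    · by_cases hbc : b + c ∈ T χ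
      · by_cases hac : a + c ∈ T χ
        · have h1 : iT χ (a + b) = 1 := if_pos hab
          have h2 : iT χ (b + c) = 1 := if_pos hbc
          have h3 : iT χ (a + c) = 1 := if_pos hac
          rw [h1, h2, h3]
          have : ¬ (H'.Adj a b ∧ H'.Adj a c ∧ H'.Adj b c) := by
            rintro ⟨k1, k2, k3⟩
            exact hfree {a, b, c} (SimpleGraph.is3Clique_triple_iff.2 ⟨k1, k2, k3⟩)
          have k : 1 ≤ g a b + g b c + g a c := by
            by_cases k1 : H'.Adj a b
            · by_cases k2 : H'.Adj a c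
              · have k3 : ¬ H'.Adj b c := fun k3 => this ⟨k1, k2, k3⟩
                have : g b c = 1 := if_pos ((SimpleGraph.sdiff_adj _ _ _ _).2 ⟨hbc, k3⟩)
                have a1 := hg0 a b
                have a2 := hg0 a c
                linarith
              · have : g a c = 1 := if_pos ((SimpleGraph.sdiff_adj _ _ _ _).2 ⟨hac, k2⟩)
                have a1 := hg0 a b
                have a2 := hg0 b c
                linarith
            · have : g a b = 1 := if_pos ((SimpleGraph.sdiff_adj _ _ _ _).2 ⟨hab, k1⟩)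
              have a1 := hg0 a c
              have a2 := hg0 b c
              linarith
          linarith
        · have h3 : iT χ (a + c) = 0 := if_neg hac
          rw [h3]; simp
      · have h3 : iT χ (b + c) = 0 := if_neg hbc
        rw [h3]; simp
    · have h3 : iT χ (a + b) = 0 := if_neg hab
      rw [h3]; simp
  set t : ℤ := q ^ 3 - 5 * q ^ 2 + 6 * q with ht
  have htpos : 0 < t := by
    have : t = q * (q - 2) * (q - 3) := by rw [ht]; ring
    rw [this]
    have h1 : 0 < q := by linarith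
    have h2 : 0 < q - 2 := by linarith
    have h3 : 0 < q - 3 := by linarith
    positivity
  -- the three weighted sums
  have hthird : ∀ a b, 4 * (iT χ (a + b) * ∑ c, iT χ (b + c) * iT χ (a + c)) = t * iT χ (a + b) :=
    fun a b => third χ a b
  have s1 : 4 * ∑ a, ∑ b, ∑ c, g a b * (iT χ (a + b) * (iT χ (b + c) * iT χ (a + c))) =
      t * ∑ a, ∑ b, g a b := by
    simp only [Finset.mul_sum]
    refine Finset.sum_congr rfl fun a _ => Finset.sum_congr rfl fun b _ => ?_
    have h := hthird a b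
    have h2 : ∑ c, 4 * (g a b * (iT χ (a + b) * (iT χ (b + c) * iT χ (a + c)))) =
        g a b * (4 * (iT χ (a + b) * ∑ c, iT χ (b + c) * iT χ (a + c))) := by
      simp only [Finset.mul_sum]
      refine Finset.sum_congr rfl fun c _ => by ring
    rw [h2, h]
    have := hgf a b
    linear_combination t * this
  have s2 : ∑ a, ∑ b, ∑ c, g b c * (iT χ (a + b) * (iT χ (b + c) * iT χ (a + c))) =
      ∑ a, ∑ b, ∑ c, g a b * (iT χ (a + b) * (iT χ (b + c) * iT χ (a + c))) := by
    -- rename (a, b, c) -> (c, a, b)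
    rw [Finset.sum_comm]
    refine Finset.sum_congr rfl fun b _ => ?_
    rw [Finset.sum_comm]
    refine Finset.sum_congr rfl fun c _ => Finset.sum_congr rfl fun a _ => ?_
    rw [add_comm a b, add_comm a c]
    ring
  have s3 : ∑ a, ∑ b, ∑ c, g a c * (iT χ (a + b) * (iT χ (b + c) * iT χ (a + c))) =
      ∑ a, ∑ b, ∑ c, g a b * (iT χ (a + b) * (iT χ (b + c) * iT χ (a + c))) := by
    refine Finset.sum_congr rfl fun a _ => ?_
    rw [Finset.sum_comm]
    refine Finset.sum_congr rfl fun c _ => Finset.sum_congr rfl fun b _ => ?_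
    rw [add_comm b c]
    ring
  have hsum : ∑ a, ∑ b, ∑ c, iT χ (a + b) * (iT χ (b + c) * iT χ (a + c)) ≤
      3 * ∑ a, ∑ b, ∑ c, g a b * (iT χ (a + b) * (iT χ (b + c) * iT χ (a + c))) := by
    refine (Finset.sum_le_sum fun a _ => Finset.sum_le_sum fun b _ =>
      Finset.sum_le_sum fun c _ => hpt a b c).trans (le_of_eq ?_)
    simp only [add_mul, Finset.sum_add_distrib]
    rw [s2, s3]
    ring
  have htri := sum_triples χ
  have hfin : t * (q ^ 6 * ((T χ).card : ℤ)) ≤ t * (3 * ∑ a, ∑ b, g a b) := by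
    have h1 : t * (q ^ 6 * ((T χ).card : ℤ)) =
        4 * ∑ a, ∑ b, ∑ c, iT χ (a + b) * (iT χ (b + c) * iT χ (a + c)) := htri.symm
    rw [h1]
    have h2 := s1
    linarith
  have hmain : q ^ 6 * ((T χ).card : ℤ) ≤ 3 * ∑ a, ∑ b, g a b := le_of_mul_le_mul_left hfin htpos
  -- degrees
  have hdeg : ∑ a, ∑ b, g a b = 2 * (((subH χ).edgeSet \ H'.edgeSet).ncard : ℤ) := by
    rw [← SimpleGraph.edgeSet_sdiff, ← twice_edges]
    refine Finset.sum_congr rfl fun a _ => Finset.sum_congr rfl fun b _ => ?_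
    simp only [hg]
    by_cases h : (subH χ \ H').Adj a b
    · rw [if_pos h, if_pos h]
    · rw [if_neg h, if_neg h]
  rw [hdeg] at hmain
  linarith

end graphs

/-- existence of the character -/
lemma exists_chi (l : ℕ) [Fintype (GaloisField 2 l)] : Nonempty (Chi (GaloisField 2 l)) := by
  classical
  let s : ZMod 2 → ℤ := fun x => if x = 0 then 1 else -1
  have hs : ∀ x y : ZMod 2, s (x + y) = s x * s y := by decide
  let ψ : GaloisField 2 l → ℤ := fun a => s (Algebra.trace (ZMod 2) (GaloisField 2 l) a)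
  have hadd : ∀ a b, ψ (a + b) = ψ a * ψ b := by
    intro a b
    simp only [ψ, map_add, hs]
  have h0 : ψ 0 = 1 := by simp [ψ, s]
  refine ⟨⟨ψ, hadd, h0, ?_⟩⟩
  obtain ⟨a0, ha0⟩ := Algebra.trace_surjective (ZMod 2) (GaloisField 2 l) 1
  have hψ : ψ a0 = -1 := by
    simp only [ψ, ha0, s]
    decide
  have h1 : ∑ t, ψ t = ψ a0 * ∑ t, ψ t := by
    rw [Finset.mul_sum]
    refine (Fintype.sum_equiv (Equiv.addLeft a0) _ _ (fun t => ?_)).symm
    rw [← hadd]
    rfl
  rw [hψ] at h1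
  linarith

/-- The examples over a field with `q = 2 ^ l` elements. -/
theorem examplesK (K : Type) [Field K] [Fintype K] [DecidableEq K] [CharP K 2] (χ : Chi K)
    (l : ℕ) (hl : 2 ≤ l) (hcard : Fintype.card K = 2 ^ l) :
    ∃ (V : Type) (_ : Fintype V) (G H : SimpleGraph V),
    (Fintype.card V : ℝ) = ((2 : ℝ) ^ l) ^ 6 ∧
    Jumbled G (1 / (2 : ℝ) ^ l) (2 * ((2 : ℝ) ^ l) ^ 3) ∧ H ≤ G ∧
    ((H.cliqueSet 3).ncard : ℝ) ≤ ((2 : ℝ) ^ l) ^ 14 ∧
    ∀ H' : SimpleGraph V, H' ≤ H → H'.CliqueFree 3 →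
      ((2 : ℝ) ^ l) ^ 11 / 24 ≤ ((H.edgeSet \ H'.edgeSet).ncard : ℝ) := by
  have hq4n : 4 ≤ Fintype.card K := by
    rw [hcard]
    calc 4 = 2 ^ 2 := by norm_num
      _ ≤ 2 ^ l := Nat.pow_le_pow_right (by norm_num) hl
  have hqR : (Fintype.card K : ℝ) = (2 : ℝ) ^ l := by rw [hcard]; push_cast; rfl
  set q : ℝ := (2 : ℝ) ^ l with hq
  have hq4 : (4 : ℝ) ≤ q := by rw [← hqR]; exact_mod_cast hq4n
  have hT : 2 * ((T χ).card : ℝ) = q ^ 5 - q ^ 4 - q ^ 2 + q := by
    have := card_T χ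
    have h2 := congrArg (fun t : ℤ => (t : ℝ)) this
    push_cast at h2
    rw [hqR] at h2
    exact h2
  refine ⟨(K × K × K) × (K × K × K), inferInstance, hostG χ, subH χ, ?_, ?_, subH_le χ, ?_, ?_⟩
  · have := card_six (K := K)
    have h2 := congrArg (fun t : ℤ => (t : ℝ)) this
    push_cast at h2
    rw [hqR] at h2
    exact_mod_cast h2
  · have := jumbled_hostG χ
    rwa [hqR] at this
  · have h1 := triangles_le χ
    have h2 := sum_triples χ
    set W3 : ℤ := ∑ a, ∑ b, ∑ c, iT χ (a + b) * (iT χ (b + c) * iT χ (a + c)) with hW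
    have h1' : ((((subH χ).cliqueSet 3).ncard : ℕ) : ℝ) ≤ (W3 : ℝ) := by
      exact_mod_cast h1
    refine h1'.trans ?_
    have h2' : 4 * (W3 : ℝ) = (q ^ 3 - 5 * q ^ 2 + 6 * q) * (q ^ 6 * ((T χ).card : ℝ)) := by
      have h3 := congrArg (fun t : ℤ => (t : ℝ)) h2
      push_cast at h3
      rw [hqR] at h3
      exact h3
    have hT1 : ((T χ).card : ℝ) ≤ q ^ 5 / 2 := by
      have : q ≤ q ^ 2 := by nlinarith
      have h4 : 0 ≤ q ^ 4 := by positivity
      linarith
    have hT0 : (0 : ℝ) ≤ ((T χ).card : ℝ) := by positivity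
    have h5 : q ^ 3 - 5 * q ^ 2 + 6 * q ≤ q ^ 3 := by nlinarith
    have h6 : (q ^ 3 - 5 * q ^ 2 + 6 * q) * (q ^ 6 * ((T χ).card : ℝ)) ≤
        q ^ 3 * (q ^ 6 * (q ^ 5 / 2)) := by
      apply mul_le_mul h5 _ (by positivity) (by positivity)
      exact mul_le_mul_of_nonneg_left hT1 (by positivity)
    have h7 : q ^ 3 * (q ^ 6 * (q ^ 5 / 2)) = q ^ 14 / 2 := by ring
    have h8 : 0 ≤ q ^ 14 := by positivity
    linarith
  · intro H' hle hfree
    have h := removed χ hq4n H' hle hfree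
    have h2 : (((Fintype.card K : ℤ) ^ 6 * ((T χ).card : ℤ) : ℤ) : ℝ) ≤
      ((6 * (((subH χ).edgeSet \ H'.edgeSet).ncard : ℤ) : ℤ) : ℝ) := by exact_mod_cast h
    push_cast at h2
    rw [hqR] at h2
    have hT1 : q ^ 5 / 4 ≤ ((T χ).card : ℝ) := by
      have h3 : q ^ 5 = q * q ^ 4 := by ring
      have h4 : 0 ≤ q ^ 4 := by positivity
      have h5 : q ^ 2 ≤ q ^ 4 := pow_le_pow_right₀ (by linarith) (by norm_num)
      have h6 : 4 * q ^ 4 ≤ q * q ^ 4 := mul_le_mul_of_nonneg_right hq4 h4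
      nlinarith
    have h6 : q ^ 6 * (q ^ 5 / 4) ≤ q ^ 6 * ((T χ).card : ℝ) :=
      mul_le_mul_of_nonneg_left hT1 (by positivity)
    have h7 : q ^ 6 * (q ^ 5 / 4) = q ^ 11 / 4 := by ring
    linarith

/-- The family of examples. -/
theorem examples (l : ℕ) (hl : 2 ≤ l) : ∃ (V : Type) (_ : Fintype V) (G H : SimpleGraph V),
    (Fintype.card V : ℝ) = ((2 : ℝ) ^ l) ^ 6 ∧
    Jumbled G (1 / (2 : ℝ) ^ l) (2 * ((2 : ℝ) ^ l) ^ 3) ∧ H ≤ G ∧
    ((H.cliqueSet 3).ncard : ℝ) ≤ ((2 : ℝ) ^ l) ^ 14 ∧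
    ∀ H' : SimpleGraph V, H' ≤ H → H'.CliqueFree 3 →
      ((2 : ℝ) ^ l) ^ 11 / 24 ≤ ((H.edgeSet \ H'.edgeSet).ncard : ℝ) := by
  classical
  let _ : Fintype (GaloisField 2 l) := Fintype.ofFinite _
  obtain ⟨χ⟩ := exists_chi l
  refine examplesK (GaloisField 2 l) χ l hl ?_
  rw [← Nat.card_eq_fintype_card]
  exact GaloisField.card 2 l (by omega)

/-- **The exponent 3 is optimal.** -/
theorem result :
    (∀ a : ℝ, a < 3 → ¬ R a) ∧
    (∀ δ : ℝ, 0 < δ → ∃ (V : Type) (_ : Fintype V) (p : ℝ) (G H : SimpleGraph V),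
      0 < p ∧ p ≤ 1 ∧ Jumbled G p (2 * p ^ 3 * (Fintype.card V : ℝ)) ∧ H ≤ G ∧
      ((H.cliqueSet 3).ncard : ℝ) ≤ δ * p ^ 3 * (Fintype.card V : ℝ) ^ 3 ∧
      ∀ H' : SimpleGraph V, H' ≤ H → H'.CliqueFree 3 →
        1 / 25 * p * (Fintype.card V : ℝ) ^ 2 < ((H.edgeSet \ H'.edgeSet).ncard : ℝ)) := by
  constructor
  · intro a ha hR
    obtain ⟨δ, hδ, c, hc, h⟩ := hR (1 / 25) (by norm_num)
    -- choose l
    have htend : Filter.Tendsto (fun l : ℕ => ((2 : ℝ) ^ l)) Filter.atTop Filter.atTop :=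
      tendsto_pow_atTop_atTop_of_one_lt (by norm_num)
    have htend2 : Filter.Tendsto (fun l : ℕ => ((2 : ℝ) ^ l) ^ (3 - a)) Filter.atTop
        Filter.atTop := (tendsto_rpow_atTop (by linarith)).comp htend
    obtain ⟨l, hl1, hl2, hl3⟩ := ((htend.eventually_ge_atTop (1 / δ)).and
      ((htend2.eventually_ge_atTop (2 / c)).and (Filter.eventually_ge_atTop 2))).exists
    obtain ⟨V, hV, G, H, hcard, hJ, hHG, htri, hrem⟩ := examples l hl3
    set q : ℝ := (2 : ℝ) ^ l with hq
    have hqpos : 0 < q := by positivity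
    have hq1 : 1 ≤ q := one_le_pow₀ (by norm_num)
    have hβ : 2 * q ^ 3 ≤ c * (1 / q) ^ a * (Fintype.card V : ℝ) := by
      rw [hcard]
      have e1 : (1 / q) ^ a * q ^ 6 = q ^ (3 - a) * q ^ 3 := by
        rw [one_div, Real.inv_rpow hqpos.le, ← Real.rpow_neg hqpos.le, ← Real.rpow_natCast q 6,
          ← Real.rpow_natCast q 3, ← Real.rpow_add hqpos, ← Real.rpow_add hqpos]
        congr 1
        push_cast
        ring
      rw [mul_assoc, e1, ← mul_assoc]
      apply mul_le_mul_of_nonneg_right _ (by positivity)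
      rw [div_le_iff₀ hc] at hl2
      linarith
    obtain ⟨H', hle, hfree, hsmall⟩ := h V (1 / q) (2 * q ^ 3) (by positivity)
      (by rw [div_le_one hqpos]; exact hq1) (by positivity) hβ G hJ H hHG (by
        rw [hcard]
        refine htri.trans ?_
        have e2 : δ * (1 / q) ^ 3 * (q ^ 6) ^ 3 = δ * q * q ^ 14 := by
          field_simp
        rw [e2]
        have : 1 ≤ δ * q := by
          rw [div_le_iff₀ hδ] at hl1
          linarith
        nlinarith [show 0 < q ^ 14 by positivity])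
    have h2 := hrem H' hle hfree
    rw [hcard] at hsmall
    have e3 : 1 / 25 * (1 / q) * (q ^ 6) ^ 2 = q ^ 11 / 25 := by
      field_simp
    rw [e3] at hsmall
    have h11 : 0 < q ^ 11 := by positivity
    linarith
  · intro δ hδ
    have htend : Filter.Tendsto (fun l : ℕ => ((2 : ℝ) ^ l)) Filter.atTop Filter.atTop :=
      tendsto_pow_atTop_atTop_of_one_lt (by norm_num)
    obtain ⟨l, hl1, hl3⟩ := ((htend.eventually_ge_atTop (1 / δ)).and
      (Filter.eventually_ge_atTop 2)).exists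
    obtain ⟨V, hV, G, H, hcard, hJ, hHG, htri, hrem⟩ := examples l hl3
    set q : ℝ := (2 : ℝ) ^ l with hq
    have hqpos : 0 < q := by positivity
    have hq1 : 1 ≤ q := one_le_pow₀ (by norm_num)
    refine ⟨V, hV, 1 / q, G, H, by positivity, by rw [div_le_one hqpos]; exact hq1, ?_, hHG, ?_, ?_⟩
    · have : 2 * (1 / q) ^ 3 * (Fintype.card V : ℝ) = 2 * q ^ 3 := by
        rw [hcard]
        field_simp
      rw [this]
      exact hJ
    · rw [hcard]
      refine htri.trans ?_
      have e2 : δ * (1 / q) ^ 3 * (q ^ 6) ^ 3 = δ * q * q ^ 14 := by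
        field_simp
      rw [e2]
      have : 1 ≤ δ * q := by
        rw [div_le_iff₀ hδ] at hl1
        linarith
      nlinarith [show 0 < q ^ 14 by positivity]
    · intro H' hle hfree
      have h2 := hrem H' hle hfree
      rw [hcard]
      have e3 : 1 / 25 * (1 / q) * (q ^ 6) ^ 2 = q ^ 11 / 25 := by
        field_simp
      rw [e3]
      have h11 : 0 < q ^ 11 := by positivity
      linarith

end Pool.Agent.Results.MP_9a0e6b_co.ExponentThree
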